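import Pool.Agent.Helper849.TA.Stmts3

set_option autoImplicit false

/-!
Task K1 of project H849-TILT: expansion of the integers of a perfectoid subfield `K` of `ℂ_p`
as finite sums of untilts of elements of `O_{K♭}`.
-/

namespace Pool.Agent.H171R3.TILT

open Pool.Agent.H356R3.FM Pool.Agent.Helper849.TA

variable (p : ℕ) [hp : Fact p.Prime]

theorem pinv_pos : (0 : ℝ) < (p : ℝ)⁻¹ := by
  have : (0 : ℝ) < p := by exact_mod_cast hp.out.pos
  positivity

theorem pinv_lt_one : (p : ℝ)⁻¹ < 1 := by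
  apply inv_lt_one_of_one_lt₀
  exact_mod_cast hp.out.one_lt

theorem coe_sub_OC (x y : OC p) : ((x - y : OC p) : PadicComplex p) = x - y := rfl

theorem mem_flatK (K : Subfield (PadicComplex p)) (a : Flat p) :
    a ∈ flatK p K ↔ ∀ n : ℕ, ∃ c : OC p, (c : PadicComplex p) ∈ K ∧
      Ideal.Quotient.mk (Ideal.span {(p : OC p)}) c = PreTilt.coeff n a := by
  unfold flatK
  rw [Subring.mem_iInf]
  refine forall_congr' fun n => ?_
  rw [Subring.mem_comap, Subring.mem_map]
  refine exists_congr fun c => ?_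
  rfl

theorem dvd_of_mk_eq (x y : OC p) (h : Ideal.Quotient.mk (Ideal.span {(p : OC p)}) x =
    Ideal.Quotient.mk (Ideal.span {(p : OC p)}) y) : (p : OC p) ∣ x - y := by
  rw [Ideal.Quotient.eq, Ideal.mem_span_singleton] at h
  exact h

theorem norm_le_of_pow_dvd (n : ℕ) (x : OC p) (h : ((p : OC p) ^ n) ∣ x) :
    ‖(x : PadicComplex p)‖ ≤ ((p : ℝ)⁻¹) ^ n := by
  rw [← mem_span_pow_p, Ideal.span_singleton_pow, Ideal.mem_span_singleton]
  exact h

/-- the untilt of an element of `flatK` lies in `K` -/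
theorem us_mem (K : Subfield (PadicComplex p)) (hK : IsPerfectoidSubfield p K) (a : Flat p)
    (ha : a ∈ flatK p K) : us p a ∈ K := by
  rw [mem_flatK] at ha
  choose c hcK hc using ha
  have hb : ∀ n : ℕ, ‖us p a - ((c n : OC p) : PadicComplex p) ^ p ^ n‖ ≤ ((p : ℝ)⁻¹) ^ (n + 1) := by
    intro n
    set z : OC p := PreTilt.untilt (((frobeniusEquiv (Flat p) p).symm^[n]) a) with hz
    have h1 : z ^ p ^ n = PreTilt.untilt a := PreTilt.untilt_iterate_frobeniusEquiv_symm_pow a n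
    have h2 : Ideal.Quotient.mk (Ideal.span {(p : OC p)}) z = PreTilt.coeff n a := by
      rw [hz, PreTilt.mk_untilt_eq_coeff_zero]
      rw [PreTilt.coeff_iterate_frobeniusEquiv_symm]
      simp
    have h3 : (p : OC p) ∣ z - c n := dvd_of_mk_eq p z (c n) (by rw [h2, hc n])
    have h4 := dvd_sub_pow_of_dvd_sub h3 n
    have h5 := norm_le_of_pow_dvd p (n + 1) _ h4
    rw [h1] at h5
    exact h5
  have hlim : Filter.Tendsto (fun n : ℕ => ((c n : OC p) : PadicComplex p) ^ p ^ n) Filter.atTop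
      (nhds (us p a)) := by
    rw [tendsto_iff_norm_sub_tendsto_zero]
    have h2 : Filter.Tendsto (fun n : ℕ => ((p : ℝ)⁻¹) ^ (n + 1)) Filter.atTop (nhds 0) :=
      (tendsto_pow_atTop_nhds_zero_of_lt_one (pinv_pos p).le (pinv_lt_one p)).comp
        (Filter.tendsto_add_atTop_nat 1)
    refine squeeze_zero (fun n => norm_nonneg _) (fun n => ?_) h2
    rw [norm_sub_rev]
    exact hb n
  have := hK.closed.mem_of_tendsto hlim (Filter.Eventually.of_forall fun n => ?_)
  · exact this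
  · exact pow_mem (hcK n) _

/-- approximation of an integer of `K` modulo `p` by an untilt -/
theorem exists_approx (K : Subfield (PadicComplex p)) (hK : IsPerfectoidSubfield p K)
    (c : PadicComplex p) (hc : c ∈ K) (hc1 : ‖c‖ ≤ 1) :
    ∃ a ∈ flatK p K, ‖us p a - c‖ ≤ (p : ℝ)⁻¹ := by
  have hstep : ∀ x : {x : PadicComplex p // x ∈ K ∧ ‖x‖ ≤ 1},
      ∃ y : {x : PadicComplex p // x ∈ K ∧ ‖x‖ ≤ 1}, ‖(x : PadicComplex p) - y ^ p‖ ≤ (p : ℝ)⁻¹ := by
    rintro ⟨x, hxK, hx1⟩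
    obtain ⟨y, hyK, hy⟩ := hK.frob x hxK hx1
    refine ⟨⟨y, hyK, ?_⟩, hy⟩
    have h1 : ‖y ^ p‖ ≤ 1 := by
      have e : y ^ p = x + -(x - y ^ p) := by ring
      rw [e]
      refine (IsUltrametricDist.norm_add_le_max _ _).trans (max_le hx1 ?_)
      rw [norm_neg]
      exact hy.trans (pinv_lt_one p).le
    rw [norm_pow] at h1
    exact (pow_le_one_iff_of_nonneg (norm_nonneg _) hp.out.ne_zero).mp h1
  choose g hg using hstep
  let s : ℕ → {x : PadicComplex p // x ∈ K ∧ ‖x‖ ≤ 1} := fun n => g^[n] ⟨c, hc, hc1⟩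
  have hs0 : (s 0 : PadicComplex p) = c := rfl
  have hs : ∀ n, s (n + 1) = g (s n) := fun n => Function.iterate_succ_apply' g n _
  let t : ℕ → OC p := fun n => ⟨(s n : PadicComplex p), (mem_OC p _).mpr (s n).2.2⟩
  have ht : ∀ n, (Ideal.Quotient.mk (Ideal.span {(p : OC p)}) (t (n + 1))) ^ p =
      Ideal.Quotient.mk (Ideal.span {(p : OC p)}) (t n) := by
    intro n
    rw [← map_pow, eq_comm, Ideal.Quotient.eq, ← pow_one (Ideal.span {(p : OC p)}), mem_span_pow_p,
      pow_one]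
    have h1 := hg (s n)
    rw [← hs] at h1
    exact h1
  let a : Flat p := ⟨fun n => Ideal.Quotient.mk (Ideal.span {(p : OC p)}) (t n), ht⟩
  have ha : ∀ n, PreTilt.coeff n a = Ideal.Quotient.mk (Ideal.span {(p : OC p)}) (t n) :=
    fun n => rfl
  refine ⟨a, ?_, ?_⟩
  · rw [mem_flatK]
    intro n
    exact ⟨t n, (s n).2.1, (ha n).symm⟩
  · have h1 : Ideal.Quotient.mk (Ideal.span {(p : OC p)}) (PreTilt.untilt a) =
        Ideal.Quotient.mk (Ideal.span {(p : OC p)}) (t 0) := by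
      rw [PreTilt.mk_untilt_eq_coeff_zero, ha]
    have h2 := dvd_of_mk_eq p _ _ h1
    have h3 := norm_le_of_pow_dvd p 1 (PreTilt.untilt a - t 0) (by rw [pow_one]; exact h2)
    rw [pow_one] at h3
    exact h3

theorem norm_eq_of_approx (x y : PadicComplex p) (r : ℝ) (h : ‖x - y‖ ≤ r) (hy : r < ‖y‖) :
    ‖x‖ = ‖y‖ := by
  have h1 : ‖x - y‖ < ‖y‖ := lt_of_le_of_lt h hy
  have e : x = (x - y) + y := by ring
  rw [e, IsUltrametricDist.norm_add_eq_max_of_norm_ne_norm (ne_of_lt h1)]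
  exact max_eq_right h1.le

/-- an integer of the tilt of `K` with the norm of `p` -/
theorem exists_w (K : Subfield (PadicComplex p)) (hK : IsPerfectoidSubfield p K) :
    ∃ w ∈ flatK p K, nf p w = (p : ℝ)⁻¹ := by
  obtain ⟨x, hxK, hx1, hx2⟩ := hK.nondiscrete
  have hx0 : 0 < ‖x‖ := (pinv_pos p).trans hx1
  have hpK : (p : PadicComplex p) ∈ K := natCast_mem K p
  have hyK : (p : PadicComplex p) / x ∈ K := div_mem hpK hxK
  have hyn : ‖(p : PadicComplex p) / x‖ = (p : ℝ)⁻¹ / ‖x‖ := by rw [norm_div, norm_pC]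
  have hy1 : ‖(p : PadicComplex p) / x‖ ≤ 1 := by
    rw [hyn, div_le_one hx0]
    exact hx1.le
  have hy2 : (p : ℝ)⁻¹ < ‖(p : PadicComplex p) / x‖ := by
    rw [hyn, lt_div_iff₀ hx0]
    exact mul_lt_of_lt_one_right (pinv_pos p) hx2
  obtain ⟨a, haK, ha⟩ := exists_approx p K hK x hxK hx2.le
  obtain ⟨b, hbK, hb⟩ := exists_approx p K hK _ hyK hy1
  refine ⟨a * b, mul_mem haK hbK, ?_⟩
  rw [nf_mul, ← norm_us, ← norm_us, norm_eq_of_approx p _ _ _ ha hx1,
    norm_eq_of_approx p _ _ _ hb hy2, hyn]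
  field_simp

/-- the tilt has the same norms -/
theorem exists_norm (K : Subfield (PadicComplex p)) (hK : IsPerfectoidSubfield p K)
    (c : PadicComplex p) (hc : c ∈ K) (hc0 : c ≠ 0) (hc1 : ‖c‖ ≤ 1) :
    ∃ a ∈ flatK p K, nf p a = ‖c‖ := by
  obtain ⟨w, hwK, hw⟩ := exists_w p K hK
  obtain ⟨k, hk1, hk2⟩ := exists_nat_pow_near_of_lt_one (norm_pos_iff.mpr hc0) hc1 (pinv_pos p)
    (pinv_lt_one p)
  have hpK : (p : PadicComplex p) ∈ K := natCast_mem K p
  have hc'K : c / (p : PadicComplex p) ^ k ∈ K := div_mem hc (pow_mem hpK k)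
  have hpk : 0 < ((p : ℝ)⁻¹) ^ k := pow_pos (pinv_pos p) k
  have hn : ‖c / (p : PadicComplex p) ^ k‖ = ‖c‖ / ((p : ℝ)⁻¹) ^ k := by
    rw [norm_div, norm_pow, norm_pC]
  have hn1 : ‖c / (p : PadicComplex p) ^ k‖ ≤ 1 := by
    rw [hn, div_le_one hpk]
    exact hk2
  have hn2 : (p : ℝ)⁻¹ < ‖c / (p : PadicComplex p) ^ k‖ := by
    rw [hn, lt_div_iff₀ hpk, ← pow_succ']
    exact hk1
  obtain ⟨b, hbK, hb⟩ := exists_approx p K hK _ hc'K hn1
  refine ⟨w ^ k * b, mul_mem (pow_mem hwK k) hbK, ?_⟩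
  rw [nf_mul, nf_pow, hw, ← norm_us, norm_eq_of_approx p _ _ _ hb hn2, hn]
  exact mul_div_cancel₀ _ hpk.ne'

/-- iterated approximation -/
theorem expand (K : Subfield (PadicComplex p)) (hK : IsPerfectoidSubfield p K) (w : Flat p)
    (hwK : w ∈ flatK p K) (hw : nf p w = (p : ℝ)⁻¹) (u : PadicComplex p) (hu : u ∈ K)
    (hu1 : ‖u‖ ≤ 1) (N : ℕ) :
    ∃ (a : ℕ → Flat p) (v : PadicComplex p), (∀ l, a l ∈ flatK p K) ∧ v ∈ K ∧ ‖v‖ ≤ 1 ∧
      u = ∑ l ∈ Finset.range N, us p (w ^ l * a l) + us p w ^ N * v := by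
  induction N with
  | zero =>
    exact ⟨fun _ => 0, u, fun _ => zero_mem _, hu, hu1, by simp⟩
  | succ N ih =>
    obtain ⟨a, v, haK, hvK, hv1, hv⟩ := ih
    obtain ⟨b, hbK, hb⟩ := exists_approx p K hK v hvK hv1
    have hw0 : w ≠ 0 := by
      rintro rfl
      rw [nf_zero] at hw
      exact (pinv_pos p).ne hw
    have hus : us p w ≠ 0 := us_ne_zero p hw0
    refine ⟨Function.update a N b, (v - us p b) / us p w, ?_, ?_, ?_, ?_⟩
    · intro l
      by_cases hl : l = N
      · subst hl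
        rw [Function.update_self]
        exact hbK
      · rw [Function.update_of_ne hl]
        exact haK l
    · exact div_mem (sub_mem hvK (us_mem p K hK b hbK)) (us_mem p K hK w hwK)
    · rw [norm_div, norm_us, hw, div_le_one (pinv_pos p), norm_sub_rev]
      exact hb
    · rw [Finset.sum_range_succ, Function.update_self]
      have h1 : ∑ l ∈ Finset.range N, us p (w ^ l * Function.update a N b l) =
          ∑ l ∈ Finset.range N, us p (w ^ l * a l) := by
        apply Finset.sum_congr rfl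
        intro l hl
        rw [Function.update_of_ne (Finset.mem_range.mp hl).ne]
      have h2 : us p w ^ (N + 1) * ((v - us p b) / us p w) = us p w ^ N * (v - us p b) := by
        rw [pow_succ]
        field_simp
      rw [h1, h2, us_mul, us_pow]
      conv_lhs => rw [hv]
      ring

theorem taskK1 : TaskK1 := by
  intro p hp K hK c hc hc1 N
  by_cases hc0 : c = 0
  · subst hc0
    refine ⟨0, fun l => l.elim0, fun l => l.elim0, fun l => l.elim0, ?_⟩
    simp only [Finset.univ_eq_empty, Finset.sum_empty, sub_zero, norm_zero]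
    exact pow_nonneg (pinv_pos p).le N
  · obtain ⟨w, hwK, hw⟩ := exists_w p K hK
    obtain ⟨a, haK, ha⟩ := exists_norm p K hK c hc hc0 hc1
    have ha0 : a ≠ 0 := by
      rintro rfl
      rw [nf_zero] at ha
      exact hc0 (norm_eq_zero.mp ha.symm)
    have hus : us p a ≠ 0 := us_ne_zero p ha0
    have huK : c / us p a ∈ K := div_mem hc (us_mem p K hK a haK)
    have hu1 : ‖c / us p a‖ ≤ 1 := by
      rw [norm_div, norm_us, ha, div_self (norm_ne_zero_iff.mpr hc0)]
    obtain ⟨b, v, hbK, hvK, hv1, hv⟩ := expand p K hK w hwK hw _ huK hu1 N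
    refine ⟨N, fun l => a * (w ^ (l : ℕ) * b l), fun l => ?_, fun l => ?_, ?_⟩
    · exact mul_mem haK (mul_mem (pow_mem hwK _) (hbK _))
    · rw [nf_mul, ha]
      exact mul_le_of_le_one_right (norm_nonneg _) (nf_le_one p _)
    · have h1 : c = us p a * (c / us p a) := by field_simp
      have h2 : ∑ l : Fin N, us p (a * (w ^ (l : ℕ) * b l)) =
          us p a * ∑ l ∈ Finset.range N, us p (w ^ l * b l) := by
        rw [← Fin.sum_univ_eq_sum_range (fun l => us p (w ^ l * b l)), Finset.mul_sum]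
        exact Finset.sum_congr rfl fun l _ => us_mul p _ _
      have h3 : c - ∑ l : Fin N, us p (a * (w ^ (l : ℕ) * b l)) = us p a * (us p w ^ N * v) := by
        rw [h2]
        conv_lhs => rw [h1, hv]
        ring
      rw [h3, norm_mul, norm_mul, norm_pow, norm_us, norm_us, hw]
      have h4 : ((p : ℝ)⁻¹) ^ N * ‖v‖ ≤ ((p : ℝ)⁻¹) ^ N :=
        mul_le_of_le_one_right (pow_nonneg (pinv_pos p).le N) hv1
      exact (mul_le_of_le_one_left (mul_nonneg (pow_nonneg (pinv_pos p).le N) (norm_nonneg _))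
        (nf_le_one p a)).trans h4

end Pool.Agent.H171R3.TILT
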